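import Pool.Agent.X180.NC.Mfd

/-!
The pointwise bound given by the maximal normal curvature.
-/

set_option autoImplicit false
set_option linter.unusedSectionVars false

namespace Pool.Agent.X180.NC

open scoped ContDiff Manifold InnerProductSpace Topology

variable {V W : Type*} [NormedAddCommGroup V] [InnerProductSpace ℝ V] [FiniteDimensional ℝ V]
  [CompleteSpace V] [NormedAddCommGroup W] [InnerProductSpace ℝ W]
  [FiniteDimensional ℝ W] [CompleteSpace W]
  {X : Type*} [TopologicalSpace X] [ChartedSpace V X]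

theorem sff_bound [IsManifold 𝓘(ℝ, V) ∞ X] {f : X → W}
    (hf : ContMDiff 𝓘(ℝ, V) 𝓘(ℝ, W) ∞ f)
    (himm : ∀ x, Function.Injective (mfderiv 𝓘(ℝ, V) 𝓘(ℝ, W) f x)) {b : ℝ}
    (hb : maxNormalCurvature V f < ENNReal.ofReal (Real.sqrt b)) :
    ∃ c : ℝ, 0 ≤ c ∧ c ^ 2 < b ∧ ∀ φ ∈ atlas V X, ∀ y ∈ φ.target, ∀ u,
      ‖sff (rep f φ) y u u‖ ≤ c * ‖fderiv ℝ (rep f φ) y u‖ ^ 2 := by
  have hfin : maxNormalCurvature V f ≠ ⊤ := ne_top_of_lt hb
  have hlt : (maxNormalCurvature V f).toReal < Real.sqrt b :=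
    ENNReal.toReal_lt_of_lt_ofReal hb
  have h0 : 0 ≤ (maxNormalCurvature V f).toReal := ENNReal.toReal_nonneg
  refine ⟨(maxNormalCurvature V f).toReal, h0, (Real.lt_sqrt h0).mp hlt, ?_⟩
  intro φ hφ y hy u
  have hinj := rep_inj hf himm hφ hy
  by_cases hu : fderiv ℝ (rep f φ) y u = 0
  · have hu0 : u = 0 := hinj (by rw [hu, map_zero])
    have : sff (rep f φ) y u u = 0 := by
      rw [hu0]
      unfold sff
      simp
    rw [this, norm_zero]
    positivity
  · set r := ‖fderiv ℝ (rep f φ) y u‖ with hr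
    have hr0 : 0 < r := norm_pos_iff.mpr hu
    have hunit : ‖fderiv ℝ (rep f φ) y (r⁻¹ • u)‖ = 1 := by
      rw [map_smul, norm_smul, norm_inv, Real.norm_of_nonneg hr0.le, ← hr,
        inv_mul_cancel₀ hr0.ne']
    have hle : ENNReal.ofReal ‖sff (rep f φ) y (r⁻¹ • u) (r⁻¹ • u)‖ ≤
        maxNormalCurvature V f := by
      unfold maxNormalCurvature
      exact le_iSup_of_le φ (le_iSup_of_le hφ (le_iSup_of_le y (le_iSup_of_le hy
        (le_iSup_of_le (r⁻¹ • u) (le_iSup_of_le hunit le_rfl)))))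
    have h1 := (ENNReal.ofReal_le_iff_le_toReal hfin).mp hle
    rw [sff_smul_left, sff_smul_right, norm_smul, norm_smul, norm_inv,
      Real.norm_of_nonneg hr0.le] at h1
    have h2 : ‖sff (rep f φ) y u u‖ = r ^ 2 * (r⁻¹ * (r⁻¹ * ‖sff (rep f φ) y u u‖)) := by
      field_simp
    rw [h2, mul_comm _ (r ^ 2)]
    exact mul_le_mul_of_nonneg_left h1 (by positivity)

end Pool.Agent.X180.NC
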