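import Pool.Agent.X180.NC.Bound

/-!
Bi-Ricci curvature.
-/

set_option autoImplicit false
set_option linter.unusedSectionVars false

namespace Pool.Agent.X180.NC

open scoped ContDiff Manifold InnerProductSpace Topology

section

variable {V : Type*} [NormedAddCommGroup V] [NormedSpace ℝ V]

/-- Positive bi-Ricci curvature at the point `y`, for a metric `G` on the four-dimensional space
`V`: `Ric(e_i, e_i) + Ric(e_j, e_j) - sec(e_i, e_j) > 0` for every orthonormal basis `e` and all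
`i ≠ j`. -/
def PosBiRic (G : V → V → V → ℝ) (y : V) : Prop :=
  ∀ e : Fin 4 → V, IsFrame G y e → ∀ i j, i ≠ j →
    0 < ric G y e (e i) + ric G y e (e j) - G y (curv G y (e i) (e j) (e j)) (e i)

end

variable {V W : Type*} [NormedAddCommGroup V] [InnerProductSpace ℝ V] [FiniteDimensional ℝ V]
  [CompleteSpace V] [NormedAddCommGroup W] [InnerProductSpace ℝ W]
  [FiniteDimensional ℝ W] [CompleteSpace W]
  {F : V → W} {y : V}

/-- The positivity of the sum of five sectional curvatures. -/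
theorem quint_pos {c : ℝ} (hc1 : c ^ 2 < 5 / 3)
    (hc : ∀ u, ‖sff F y u u‖ ≤ c * ‖fderiv ℝ F y u‖ ^ 2)
    (hF : ContDiffAt ℝ ∞ F y) (hinj : Function.Injective (fderiv ℝ F y))
    (hΦ : ‖F y‖ ^ 2 + 3 / 2 * tq F y ≤ 1) {u : Fin 4 → V}
    (hu : ∀ i j, ⟪fderiv ℝ F y (u i), fderiv ℝ F y (u j)⟫_ℝ = if i = j then 1 else 0) :
    0 < K1 (5 / 2) F y (u 0) (u 1) + K1 (5 / 2) F y (u 0) (u 2) + K1 (5 / 2) F y (u 0) (u 3)
      + K1 (5 / 2) F y (u 1) (u 2) + K1 (5 / 2) F y (u 1) (u 3) := by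
  have hn : ∀ i, ⟪sff F y (u i) (u i), sff F y (u i) (u i)⟫_ℝ ≤ c ^ 2 := by
    intro i
    have h1 := hc (u i)
    have h2 : ‖fderiv ℝ F y (u i)‖ ^ 2 = 1 := by
      rw [← real_inner_self_eq_norm_sq, hu i i, if_pos rfl]
    rw [h2, mul_one] at h1
    rw [real_inner_self_eq_norm_sq]
    exact pow_le_pow_left₀ (norm_nonneg _) h1 2
  have p01 := polar hc hF (u := u 0) (v := u 1) (by rw [hu]; rfl) (by rw [hu]; rfl)
    (by rw [hu]; rfl)
  have p02 := polar hc hF (u := u 0) (v := u 2) (by rw [hu]; rfl) (by rw [hu]; rfl)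
    (by rw [hu]; rfl)
  have p03 := polar hc hF (u := u 0) (v := u 3) (by rw [hu]; rfl) (by rw [hu]; rfl)
    (by rw [hu]; rfl)
  have p12 := polar hc hF (u := u 1) (v := u 2) (by rw [hu]; rfl) (by rw [hu]; rfl)
    (by rw [hu]; rfl)
  have p13 := polar hc hF (u := u 1) (v := u 3) (by rw [hu]; rfl) (by rw [hu]; rfl)
    (by rw [hu]; rfl)
  have hfn : ∀ i, ⟪F y - fderiv ℝ F y (lft (fderiv ℝ F y) (F y)), sff F y (u i) (u i)⟫_ℝ
      = ⟪F y, sff F y (u i) (u i)⟫_ℝ := by
    intro i
    rw [inner_sub_left, real_inner_comm (sff F y (u i) (u i)) (fderiv ℝ F y _),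
      sff_inner hinj, sub_zero]
  have hfnn : ⟪F y - fderiv ℝ F y (lft (fderiv ℝ F y) (F y)),
      F y - fderiv ℝ F y (lft (fderiv ℝ F y) (F y))⟫_ℝ = ‖F y‖ ^ 2 - tq F y := by
    have h1 : ⟪F y - fderiv ℝ F y (lft (fderiv ℝ F y) (F y)),
        fderiv ℝ F y (lft (fderiv ℝ F y) (F y))⟫_ℝ = 0 := by
      rw [inner_sub_left, lft_inner hinj, sub_self]
    rw [inner_sub_right, h1, sub_zero, inner_sub_left,
      real_inner_self_eq_norm_sq, real_inner_comm (F y) (fderiv ℝ F y _)]
    rfl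
  have h0 := hfn 0
  have h1 := hfn 1
  have h2 := hfn 2
  have h3 := hfn 3
  have n0 := hn 0
  have n1 := hn 1
  have n2 := hn 2
  have n3 := hn 3
  have ht := tq_nonneg hinj
  unfold K1
  generalize F y - fderiv ℝ F y (lft (fderiv ℝ F y) (F y)) = h at h0 h1 h2 h3 hfnn
  rw [← h0, ← h1, ← h2, ← h3]
  clear h0 h1 h2 h3 hfn hn
  generalize sff F y (u 0) (u 0) = v0 at *
  generalize sff F y (u 1) (u 1) = v1 at *
  generalize sff F y (u 2) (u 2) = v2 at *
  generalize sff F y (u 3) (u 3) = v3 at *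
  have s1 := real_inner_self_nonneg (x := (3 : ℝ) • (v0 + v1) + (2 : ℝ) • (v2 + v3)
    + (10 : ℝ) • h)
  have s2 := real_inner_self_nonneg (x := v0 - v1)
  have s3 := real_inner_self_nonneg (x := v2 - v3)
  simp only [inner_add_left, inner_add_right, inner_sub_left, inner_sub_right,
    real_inner_smul_left, real_inner_smul_right] at s1 s2 s3
  rw [real_inner_comm v0 v1, real_inner_comm v0 v2, real_inner_comm v0 v3,
    real_inner_comm v1 v2, real_inner_comm v1 v3, real_inner_comm v2 v3,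
    real_inner_comm h v0, real_inner_comm h v1, real_inner_comm h v2, real_inner_comm h v3] at s1
  rw [real_inner_comm v0 v1] at s2
  rw [real_inner_comm v2 v3] at s3
  nlinarith [sq_nonneg ⟪F y, fderiv ℝ F y (u 0)⟫_ℝ, sq_nonneg ⟪F y, fderiv ℝ F y (u 1)⟫_ℝ,
    sq_nonneg ⟪F y, fderiv ℝ F y (u 2)⟫_ℝ, sq_nonneg ⟪F y, fderiv ℝ F y (u 3)⟫_ℝ]

theorem posBiRic_Gp (hF : ∀ᶠ x in 𝓝 y, ContDiffAt ℝ ∞ F x)
    (hinj : Function.Injective (fderiv ℝ F y)) {c : ℝ} (hc1 : c ^ 2 < 5 / 3)
    (hc : ∀ u, ‖sff F y u u‖ ≤ c * ‖fderiv ℝ F y u‖ ^ 2)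
    (hΦ : ‖F y‖ ^ 2 + 3 / 2 * tq F y ≤ 1) : PosBiRic (Gp (5 / 2) F) y := by
  intro e he s t hst
  have hF0 := hF.self_of_nhds
  have hr := rho_pos (F := F) (y := y) (5 / 2)
  set a : Fin 4 → Fin 4 → ℝ := fun i j =>
    Gp (5 / 2) F y (curv (Gp (5 / 2) F) y (e i) (e j) (e j)) (e i) with ha
  have haa : ∀ i, a i i = 0 := by
    intro i
    simp only [ha]
    rw [curv_self]
    unfold Gp
    simp
  have hK : ∀ i j, i ≠ j → rho (5 / 2) F y * a i j =
      K1 (5 / 2) F y (resc (5 / 2) F y e i) (resc (5 / 2) F y e j) := fun i j hij =>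
    frame_curv hF hinj he hij
  have hsym : ∀ i j, a i j = a j i := by
    intro i j
    by_cases hij : i = j
    · rw [hij]
    · have h1 := hK i j hij
      have h2 := hK j i (Ne.symm hij)
      rw [K1_symm hF0] at h2
      have h3 : rho (5 / 2) F y * a i j = rho (5 / 2) F y * a j i := h1.trans h2.symm
      exact mul_left_cancel₀ hr.ne' h3
  have htr : ∀ i j k l : Fin 4, i ≠ j → i ≠ k → i ≠ l → j ≠ k → j ≠ l → k ≠ l →
      0 < a i j + a i k + a i l + a j k + a j l := by
    intro i j k l hij hik hil hjk hjl hkl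
    have hidx : ∀ s t : Fin 4, (![i, j, k, l] : Fin 4 → Fin 4) s =
        (![i, j, k, l] : Fin 4 → Fin 4) t ↔ s = t := by
      intro s t
      fin_cases s <;> fin_cases t <;> simp [hij, hik, hil, hjk, hjl, hkl, hij.symm, hik.symm,
        hil.symm, hjk.symm, hjl.symm, hkl.symm]
    have h1 := quint_pos hc1 hc hF0 hinj hΦ
      (u := fun s => resc (5 / 2) F y e ((![i, j, k, l] : Fin 4 → Fin 4) s)) (by
        intro s t
        rw [resc_ortho he]
        exact if_congr (hidx s t) rfl rfl)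
    have h2 : 0 < rho (5 / 2) F y * (a i j + a i k + a i l + a j k + a j l) := by
      rw [mul_add, mul_add, mul_add, mul_add, hK i j hij, hK i k hik, hK i l hil, hK j k hjk,
        hK j l hjl]
      exact h1
    exact (mul_pos_iff_of_pos_left hr).mp h2
  have hric : ∀ k, ric (Gp (5 / 2) F) y e (e k) = a 0 k + a 1 k + a 2 k + a 3 k := by
    intro k
    unfold ric
    rw [Fin.sum_univ_four]
  have hfin : 0 < (a 0 s + a 1 s + a 2 s + a 3 s) + (a 0 t + a 1 t + a 2 t + a 3 t) - a s t := by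
    have t0 := htr 0 1 2 3 (by decide) (by decide) (by decide) (by decide) (by decide) (by decide)
    have t1 := htr 0 2 1 3 (by decide) (by decide) (by decide) (by decide) (by decide) (by decide)
    have t2 := htr 0 3 1 2 (by decide) (by decide) (by decide) (by decide) (by decide) (by decide)
    have t3 := htr 1 2 0 3 (by decide) (by decide) (by decide) (by decide) (by decide) (by decide)
    have t4 := htr 1 3 0 2 (by decide) (by decide) (by decide) (by decide) (by decide) (by decide)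
    have t5 := htr 2 3 0 1 (by decide) (by decide) (by decide) (by decide) (by decide) (by decide)
    have s10 := hsym 1 0
    have s20 := hsym 2 0
    have s30 := hsym 3 0
    have s21 := hsym 2 1
    have s31 := hsym 3 1
    have s32 := hsym 3 2
    have z0 := haa 0
    have z1 := haa 1
    have z2 := haa 2
    have z3 := haa 3
    clear_value a
    have hall : ∀ s t : Fin 4, s ≠ t →
        0 < (a 0 s + a 1 s + a 2 s + a 3 s) + (a 0 t + a 1 t + a 2 t + a 3 t) - a s t := by
      intro s t hst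
      have hs : s = 0 ∨ s = 1 ∨ s = 2 ∨ s = 3 := by fin_cases s <;> simp
      have ht : t = 0 ∨ t = 1 ∨ t = 2 ∨ t = 3 := by fin_cases t <;> simp
      rcases hs with rfl | rfl | rfl | rfl <;> rcases ht with rfl | rfl | rfl | rfl <;>
        first
        | exact absurd rfl hst
        | linarith
    exact hall s t hst
  rw [hric, hric]
  exact hfin

end Pool.Agent.X180.NC
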