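import Pool.Agent.X180.NC.Lft

/-!
The curvature of the metric `exp(-p |F|²) ⟨dF, dF⟩`.
-/

set_option autoImplicit false
set_option linter.unusedSectionVars false

namespace Pool.Agent.X180.NC

open scoped ContDiff Manifold InnerProductSpace Topology

variable {V W : Type*} [NormedAddCommGroup V] [InnerProductSpace ℝ V] [FiniteDimensional ℝ V]
  [CompleteSpace V] [NormedAddCommGroup W] [InnerProductSpace ℝ W]
  [FiniteDimensional ℝ W] [CompleteSpace W]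

/-- The metric `exp(-p |F|²) ⟨dF, dF⟩`. -/
noncomputable def Gp (p : ℝ) (F : V → W) : V → V → V → ℝ := fun y u v =>
  Real.exp (-p * ‖F y‖ ^ 2) * ⟪fderiv ℝ F y u, fderiv ℝ F y v⟫_ℝ

/-- The ambient vector whose tangential part is the Christoffel map. -/
noncomputable def Wp (p : ℝ) (F : V → W) (y v w : V) : W :=
  fderiv ℝ (fderiv ℝ F) y v w + (p * ⟪fderiv ℝ F y v, fderiv ℝ F y w⟫_ℝ) • F y
    - (p * ⟪F y, fderiv ℝ F y v⟫_ℝ) • fderiv ℝ F y w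
    - (p * ⟪F y, fderiv ℝ F y w⟫_ℝ) • fderiv ℝ F y v

section

variable {F : V → W} {y : V}

theorem two_le_infty : (2 : WithTop ℕ∞) ≤ ∞ := by
  change ((2 : ℕ∞) : WithTop ℕ∞) ≤ ((⊤ : ℕ∞) : WithTop ℕ∞)
  exact WithTop.coe_le_coe.mpr le_top

theorem cd1 (hF : ContDiffAt ℝ ∞ F y) : ContDiffAt ℝ ∞ (fderiv ℝ F) y :=
  hF.fderiv_right (m := ∞) (by norm_num)

theorem cd2 (hF : ContDiffAt ℝ ∞ F y) : ContDiffAt ℝ ∞ (fderiv ℝ (fderiv ℝ F)) y :=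
  cd1 (F := F) (y := y) hF |>.fderiv_right (m := ∞) (by norm_num)

theorem dd0 (hF : ContDiffAt ℝ ∞ F y) (u : V) : DD y u F (fderiv ℝ F y u) :=
  DD.of_diff (hF.differentiableAt (by norm_num))

theorem dd1 (hF : ContDiffAt ℝ ∞ F y) (u : V) :
    DD y u (fderiv ℝ F) (fderiv ℝ (fderiv ℝ F) y u) :=
  DD.of_diff ((cd1 hF).differentiableAt (by norm_num))

theorem dd2 (hF : ContDiffAt ℝ ∞ F y) (u : V) :
    DD y u (fderiv ℝ (fderiv ℝ F)) (fderiv ℝ (fderiv ℝ (fderiv ℝ F)) y u) :=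
  DD.of_diff ((cd2 hF).differentiableAt (by norm_num))

theorem symm2 (hF : ContDiffAt ℝ ∞ F y) (u v : V) :
    fderiv ℝ (fderiv ℝ F) y u v = fderiv ℝ (fderiv ℝ F) y v u :=
  (hF.isSymmSndFDerivAt (by simpa using two_le_infty)).eq u v

theorem symm3 (hF : ContDiffAt ℝ ∞ F y) (u v : V) :
    fderiv ℝ (fderiv ℝ (fderiv ℝ F)) y u v = fderiv ℝ (fderiv ℝ (fderiv ℝ F)) y v u :=
  ((cd1 hF).isSymmSndFDerivAt (by simpa using two_le_infty)).eq u v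

theorem dd_Gp (hF : ContDiffAt ℝ ∞ F y) (p : ℝ) (u v w : V) :
    fderiv ℝ (fun x => Gp p F x v w) y u =
      Real.exp (-p * ‖F y‖ ^ 2) *
        (⟪fderiv ℝ F y v, fderiv ℝ (fderiv ℝ F) y u w⟫_ℝ
          + ⟪fderiv ℝ (fderiv ℝ F) y u v, fderiv ℝ F y w⟫_ℝ
          - 2 * p * ⟪F y, fderiv ℝ F y u⟫_ℝ * ⟪fderiv ℝ F y v, fderiv ℝ F y w⟫_ℝ) := by
  have h1 : DD y u (fun x => ⟪F x, F x⟫_ℝ)
      (⟪F y, fderiv ℝ F y u⟫_ℝ + ⟪fderiv ℝ F y u, F y⟫_ℝ) := (dd0 hF u).inner (dd0 hF u)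
  have h2 := ((DD.const y u (-p)).mul h1).exp
  have h3 := ((dd1 hF u).clm_const v).inner ((dd1 hF u).clm_const w)
  have h4 := h2.mul h3
  have h5 : (fun x => Gp p F x v w) = fun x =>
      Real.exp (-p * ⟪F x, F x⟫_ℝ) * ⟪fderiv ℝ F x v, fderiv ℝ F x w⟫_ℝ := by
    funext x
    unfold Gp
    rw [real_inner_self_eq_norm_sq]
  rw [h5, h4.fderiv_eq, real_inner_comm (F y) (fderiv ℝ F y u), real_inner_self_eq_norm_sq]
  ring

theorem Wp_symm (hF : ContDiffAt ℝ ∞ F y) (p : ℝ) (v w : V) : Wp p F y v w = Wp p F y w v := by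
  unfold Wp
  rw [symm2 hF v w, real_inner_comm (fderiv ℝ F y v) (fderiv ℝ F y w)]
  abel

theorem Gam_Gp (hF : ContDiffAt ℝ ∞ F y) (hinj : Function.Injective (fderiv ℝ F y)) (p : ℝ)
    (v w : V) : Gam (Gp p F) y v w = lft (fderiv ℝ F y) (Wp p F y v w) := by
  have hex : Real.exp (-p * ‖F y‖ ^ 2) ≠ 0 := Real.exp_ne_zero _
  have hz : ∀ z, 2 * Gp p F y (lft (fderiv ℝ F y) (Wp p F y v w)) z =
      fderiv ℝ (fun x => Gp p F x w z) y v + fderiv ℝ (fun x => Gp p F x v z) y w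
      - fderiv ℝ (fun x => Gp p F x v w) y z := by
    intro z
    rw [dd_Gp hF, dd_Gp hF, dd_Gp hF]
    unfold Gp
    rw [lft_inner hinj]
    unfold Wp
    simp only [inner_add_left, inner_sub_left, inner_smul_left, RCLike.conj_to_real]
    rw [symm2 hF v z, symm2 hF w z, symm2 hF w v,
      real_inner_comm (fderiv ℝ F y w) (fderiv ℝ (fderiv ℝ F) y z v)]
    ring
  have hs : ∀ z, 2 * Gp p F y (Gam (Gp p F) y v w) z =
      fderiv ℝ (fun x => Gp p F x w z) y v + fderiv ℝ (fun x => Gp p F x v z) y w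
      - fderiv ℝ (fun x => Gp p F x v w) y z :=
    Classical.epsilon_spec (p := fun z' => ∀ z, 2 * Gp p F y z' z =
      fderiv ℝ (fun x => Gp p F x w z) y v + fderiv ℝ (fun x => Gp p F x v z) y w
      - fderiv ℝ (fun x => Gp p F x v w) y z) ⟨_, hz⟩
  apply inner_ext hinj
  intro z
  have h1 := (hs z).trans (hz z).symm
  unfold Gp at h1
  have h2 : Real.exp (-p * ‖F y‖ ^ 2) *
      (⟪fderiv ℝ F y (Gam (Gp p F) y v w), fderiv ℝ F y z⟫_ℝ -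
      ⟪fderiv ℝ F y (lft (fderiv ℝ F y) (Wp p F y v w)), fderiv ℝ F y z⟫_ℝ) = 0 := by
    have h3 : (fun y u v => Real.exp (-p * ‖F y‖ ^ 2) *
      ⟪(fderiv ℝ F y) u, (fderiv ℝ F y) v⟫_ℝ) = Gp p F := rfl
    rw [h3] at h1
    linarith
  rcases mul_eq_zero.mp h2 with h | h
  · exact absurd h hex
  · linarith

theorem dd_Wp (hF : ContDiffAt ℝ ∞ F y) (p : ℝ) (u v w : V) :
    DD y u (fun x => Wp p F x v w)
      (fderiv ℝ (fderiv ℝ (fderiv ℝ F)) y u v w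
        + ((p * ⟪fderiv ℝ F y v, fderiv ℝ F y w⟫_ℝ) • fderiv ℝ F y u
          + (p * (⟪fderiv ℝ F y v, fderiv ℝ (fderiv ℝ F) y u w⟫_ℝ
            + ⟪fderiv ℝ (fderiv ℝ F) y u v, fderiv ℝ F y w⟫_ℝ)) • F y)
        - ((p * ⟪F y, fderiv ℝ F y v⟫_ℝ) • fderiv ℝ (fderiv ℝ F) y u w
          + (p * (⟪F y, fderiv ℝ (fderiv ℝ F) y u v⟫_ℝ
            + ⟪fderiv ℝ F y u, fderiv ℝ F y v⟫_ℝ)) • fderiv ℝ F y w)
        - ((p * ⟪F y, fderiv ℝ F y w⟫_ℝ) • fderiv ℝ (fderiv ℝ F) y u v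
          + (p * (⟪F y, fderiv ℝ (fderiv ℝ F) y u w⟫_ℝ
            + ⟪fderiv ℝ F y u, fderiv ℝ F y w⟫_ℝ)) • fderiv ℝ F y v)) := by
  have hB := fun v => (dd1 hF u).clm_const v
  have h0 := dd0 hF u
  have h2 := ((dd2 hF u).clm_const v).clm_const w
  have hp := fun (g : V → ℝ) (a : ℝ) (hg : DD y u g a) => (DD.const y u p).mul hg
  have h3 := (hp _ _ ((hB v).inner (hB w))).smul h0
  have h4 := (hp _ _ (h0.inner (hB v))).smul (hB w)
  have h5 := (hp _ _ (h0.inner (hB w))).smul (hB v)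
  have h6 := ((h2.add h3).sub h4).sub h5
  simp only [zero_mul, add_zero] at h6
  exact h6

theorem cdW (hF : ContDiffAt ℝ ∞ F y) (p : ℝ) (v w : V) :
    ContDiffAt ℝ ∞ (fun x => Wp p F x v w) y := by
  unfold Wp
  have h1 : ∀ v, ContDiffAt ℝ ∞ (fun x => fderiv ℝ F x v) y := fun v =>
    (cd1 hF).clm_apply contDiffAt_const
  have h2 : ContDiffAt ℝ ∞ (fun x => fderiv ℝ (fderiv ℝ F) x v w) y :=
    ((cd2 hF).clm_apply contDiffAt_const).clm_apply contDiffAt_const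
  refine ((h2.add ((contDiffAt_const.mul ((h1 v).inner ℝ (h1 w))).smul hF)).sub
    ((contDiffAt_const.mul (hF.inner ℝ (h1 v))).smul (h1 w))).sub
    ((contDiffAt_const.mul (hF.inner ℝ (h1 w))).smul (h1 v))

theorem evInj (hF : ∀ᶠ x in 𝓝 y, ContDiffAt ℝ ∞ F x)
    (hinj : Function.Injective (fderiv ℝ F y)) :
    ∀ᶠ x in 𝓝 y, Function.Injective (fderiv ℝ F x) :=
  eventually_injective (cd1 hF.self_of_nhds).continuousAt hinj

theorem ev_Gam (hF : ∀ᶠ x in 𝓝 y, ContDiffAt ℝ ∞ F x) (hinj : Function.Injective (fderiv ℝ F y)) (p : ℝ)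
    (v w : V) : (fun x => Gam (Gp p F) x v w) =ᶠ[𝓝 y]
      fun x => lft (fderiv ℝ F x) (Wp p F x v w) := by
  filter_upwards [hF, evInj hF hinj] with x h1 h2
  exact Gam_Gp h1 h2 p v w

theorem dd_Gam (hF : ∀ᶠ x in 𝓝 y, ContDiffAt ℝ ∞ F x) (hinj : Function.Injective (fderiv ℝ F y)) (p : ℝ)
    (u v w : V) : DD y u (fun x => Gam (Gp p F) x v w)
      (fderiv ℝ (fun x => Gam (Gp p F) x v w) y u) := by
  apply DD.of_diff
  have h : ContDiffAt ℝ ∞ (fun x => lft (fderiv ℝ F x) (Wp p F x v w)) y :=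
    (contDiffAt_lft (cd1 hF.self_of_nhds) hinj).clm_apply (cdW hF.self_of_nhds p v w)
  exact (h.congr_of_eventuallyEq (ev_Gam hF hinj p v w)).differentiableAt (by norm_num)

theorem Gam_inner (hF : ContDiffAt ℝ ∞ F y) (hinj : Function.Injective (fderiv ℝ F y)) (p : ℝ)
    (v w z : V) : ⟪fderiv ℝ F y (Gam (Gp p F) y v w), fderiv ℝ F y z⟫_ℝ =
      ⟪Wp p F y v w, fderiv ℝ F y z⟫_ℝ := by
  rw [Gam_Gp hF hinj, lft_inner hinj]

theorem key (hF : ∀ᶠ x in 𝓝 y, ContDiffAt ℝ ∞ F x) (hinj : Function.Injective (fderiv ℝ F y)) (p : ℝ)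
    (u v w z : V) {W' : W} (hW : DD y u (fun x => Wp p F x v w) W') :
    ⟪fderiv ℝ F y (fderiv ℝ (fun x => Gam (Gp p F) x v w) y u), fderiv ℝ F y z⟫_ℝ =
      ⟪W', fderiv ℝ F y z⟫_ℝ
        + ⟪Wp p F y v w - fderiv ℝ F y (Gam (Gp p F) y v w), fderiv ℝ (fderiv ℝ F) y u z⟫_ℝ
        - ⟪fderiv ℝ (fderiv ℝ F) y u (Gam (Gp p F) y v w), fderiv ℝ F y z⟫_ℝ := by
  have h1 : (fun x => ⟪fderiv ℝ F x (Gam (Gp p F) x v w), fderiv ℝ F x z⟫_ℝ) =ᶠ[𝓝 y]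
      fun x => ⟪Wp p F x v w, fderiv ℝ F x z⟫_ℝ := by
    filter_upwards [hF, evInj hF hinj] with x h1 h2
    exact Gam_inner h1 h2 p v w z
  have hBz := (dd1 hF.self_of_nhds u).clm_const z
  have h2 := ((dd1 hF.self_of_nhds u).clm (dd_Gam hF hinj p u v w)).inner hBz
  have h3 := hW.inner hBz
  have h4 := h2.unique (h3.congr h1)
  rw [inner_add_left] at h4
  rw [inner_sub_left]
  linarith

end

end Pool.Agent.X180.NC
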