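import Mathlib

/-!
Closed submanifolds of the unit ball: local representatives of an immersion, second fundamental
form, maximal normal curvature, metrics given in a chart, Christoffel map, curvature, Ricci
curvature.
-/

set_option autoImplicit false

namespace Pool.Agent.X180.NC

open scoped ContDiff Manifold InnerProductSpace Topology

section Local

variable {V W : Type*} [NormedAddCommGroup V] [NormedSpace ℝ V]
  [NormedAddCommGroup W] [InnerProductSpace ℝ W]

/-- The second fundamental form `A(u, v)` at `y` of a map `F : V → W` which is an immersion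
near `y` (`V` and `W` are Euclidean spaces): the component of the second derivative
`D²F(y)(u, v)` orthogonal to the image of `DF(y)`. -/
noncomputable def sff [FiniteDimensional ℝ V] (F : V → W) (y u v : V) : W :=
  (LinearMap.range (fderiv ℝ F y : V →ₗ[ℝ] W))ᗮ.starProjection
    (fderiv ℝ (fderiv ℝ F) y u v)

/-- The Christoffel map at `y` of a metric `G` on (an open subset of) `V`, where `G x u v` is
the inner product at `x` of the tangent vectors `u, v`: `Γ(u, v)` is the vector `z` given by the
Koszul formula `2 ⟨z, w⟩ = D_u ⟨v, w⟩ + D_v ⟨u, w⟩ - D_w ⟨u, v⟩` for all `w`. -/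
noncomputable def Gam (G : V → V → V → ℝ) (y u v : V) : V :=
  Classical.epsilon fun z => ∀ w, 2 * G y z w =
    fderiv ℝ (fun x => G x v w) y u + fderiv ℝ (fun x => G x u w) y v
      - fderiv ℝ (fun x => G x u v) y w

/-- The curvature tensor `R(u, v) w` at `y`, with `R(X, Y) = [∇_X, ∇_Y] - ∇_[X, Y]`. -/
noncomputable def curv (G : V → V → V → ℝ) (y u v w : V) : V :=
  fderiv ℝ (fun x => Gam G x v w) y u - fderiv ℝ (fun x => Gam G x u w) y v
    + Gam G y u (Gam G y v w) - Gam G y v (Gam G y u w)

/-- `e` is an orthonormal basis of the tangent space at `y`, for the metric `G` on `V`, where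
`V` has dimension `n`. -/
def IsFrame {n : ℕ} (G : V → V → V → ℝ) (y : V) (e : Fin n → V) : Prop :=
  ∀ i j, G y (e i) (e j) = if i = j then 1 else 0

/-- The Ricci curvature `Ric(u, u)` at `y`, computed as a trace in an orthonormal basis `e`. -/
noncomputable def ric {n : ℕ} (G : V → V → V → ℝ) (y : V) (e : Fin n → V) (u : V) : ℝ :=
  ∑ i, G y (curv G y (e i) u u) (e i)

/-- The scalar curvature at `y`, computed as a trace in an orthonormal basis `e`. -/
noncomputable def scal {n : ℕ} (G : V → V → V → ℝ) (y : V) (e : Fin n → V) : ℝ :=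
  ∑ k, ric G y e (e k)

/-- Condition (R) at the point `y`, for a metric `G` on the four-dimensional space `V`:
`2 Ric(e_k, e_k) < scal` for every orthonormal basis `e` and every `k`. -/
def CondR (G : V → V → V → ℝ) (y : V) : Prop :=
  ∀ e : Fin 4 → V, IsFrame G y e → ∀ k, 2 * ric G y e (e k) < scal G y e

end Local

section Global

variable {V W X : Type*} [NormedAddCommGroup V] [NormedSpace ℝ V]
  [NormedAddCommGroup W] [InnerProductSpace ℝ W] [TopologicalSpace X]

/-- The local representative `f ∘ φ⁻¹` of `f` in the chart `φ`. -/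
def rep (f : X → W) (φ : OpenPartialHomeomorph X V) : V → W := fun y => f (φ.symm y)

/-- The metric `e^{2ψ} g` in the chart `φ`, where `g = f^* g_W` is the metric induced by
`f : X → W`. -/
noncomputable def chartMetric (f : X → W) (ψ : X → ℝ) (φ : OpenPartialHomeomorph X V) :
    V → V → V → ℝ := fun y u v =>
  Real.exp (2 * ψ (φ.symm y)) * ⟪fderiv ℝ (rep f φ) y u, fderiv ℝ (rep f φ) y v⟫_ℝ

variable (V) [ChartedSpace V X]

/-- The maximal normal curvature `sup {|A(u, u)| : |u| = 1}` of an immersion `f` of a manifold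
`X` (modelled on `V`) in `W`: the supremum of `|A(u, u)|` over all charts `φ` of `X`, all points
`y` of the image of `φ` and all tangent vectors `u` of length one. -/
noncomputable def maxNormalCurvature [FiniteDimensional ℝ V] (f : X → W) : ENNReal :=
  ⨆ (φ ∈ atlas V X) (y ∈ φ.target) (u : V) (_ : ‖fderiv ℝ (rep f φ) y u‖ = 1),
    ENNReal.ofReal ‖sff (rep f φ) y u u‖

/-- `f : X → W` is a smooth immersion of the manifold `X` (modelled on `V`). -/
def IsSmoothImmersion (f : X → W) : Prop :=
  ContMDiff 𝓘(ℝ, V) 𝓘(ℝ, W) ∞ f ∧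
    ∀ x, Function.Injective (mfderiv 𝓘(ℝ, V) 𝓘(ℝ, W) f x)

/-- The metric induced by `f : X → W` is conformal to a metric `e^{2ψ} g` (`ψ : X → ℝ` smooth)
such that `P` holds for the metric `e^{2ψ} g` in every chart and at every point. -/
def ConformalTo (f : X → W) (P : (V → V → V → ℝ) → V → Prop) : Prop :=
  ∃ ψ : X → ℝ, ContMDiff 𝓘(ℝ, V) 𝓘(ℝ, ℝ) ∞ ψ ∧
    ∀ φ ∈ atlas V X, ∀ y ∈ φ.target, P (chartMetric f ψ φ) y

end Global

end Pool.Agent.X180.NC
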