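import Pool.Agent.X180.NC.Curv

/-!
The curvature of the metric `exp(-p |F|²) ⟨dF, dF⟩`: formula.
-/

set_option autoImplicit false
set_option linter.unusedSectionVars false

namespace Pool.Agent.X180.NC

open scoped ContDiff Manifold InnerProductSpace Topology

variable {V W : Type*} [NormedAddCommGroup V] [InnerProductSpace ℝ V] [FiniteDimensional ℝ V]
  [CompleteSpace V] [NormedAddCommGroup W] [InnerProductSpace ℝ W]
  [FiniteDimensional ℝ W] [CompleteSpace W]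

theorem proj_range {B : V →L[ℝ] W} (hinj : Function.Injective B) (s : W) :
    (LinearMap.range (B : V →ₗ[ℝ] W)).starProjection s = B (lft B s) := by
  apply Submodule.eq_starProjection_of_mem_of_inner_eq_zero
  · exact ⟨lft B s, rfl⟩
  · rintro w ⟨z, rfl⟩
    change ⟪s - B (lft B s), B z⟫_ℝ = 0
    rw [inner_sub_left, lft_inner hinj, sub_self]

section

variable {F : V → W} {y : V}

theorem sff_eq (hinj : Function.Injective (fderiv ℝ F y)) (u v : V) :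
    sff F y u v = fderiv ℝ (fderiv ℝ F) y u v
      - fderiv ℝ F y (lft (fderiv ℝ F y) (fderiv ℝ (fderiv ℝ F) y u v)) := by
  unfold sff
  rw [Submodule.starProjection_orthogonal_val, proj_range hinj]

theorem sff_inner (hinj : Function.Injective (fderiv ℝ F y)) (u v z : V) :
    ⟪sff F y u v, fderiv ℝ F y z⟫_ℝ = 0 := by
  rw [sff_eq hinj, inner_sub_left, lft_inner hinj, sub_self]

theorem sff_symm (hF : ContDiffAt ℝ ∞ F y) (u v : V) : sff F y u v = sff F y v u := by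
  unfold sff
  rw [symm2 hF]

theorem normal_term (hF : ContDiffAt ℝ ∞ F y) (hinj : Function.Injective (fderiv ℝ F y)) (p : ℝ)
    (v w a b : V) :
    ⟪Wp p F y v w - fderiv ℝ F y (Gam (Gp p F) y v w), fderiv ℝ (fderiv ℝ F) y a b⟫_ℝ =
      ⟪sff F y v w, sff F y a b⟫_ℝ
        + p * ⟪fderiv ℝ F y v, fderiv ℝ F y w⟫_ℝ * ⟪F y, sff F y a b⟫_ℝ := by
  have hdec : ∀ c d, fderiv ℝ (fderiv ℝ F) y c d = sff F y c d
      + fderiv ℝ F y (lft (fderiv ℝ F y) (fderiv ℝ (fderiv ℝ F) y c d)) := by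
    intro c d
    rw [sff_eq hinj, sub_add_cancel]
  have h1 : ⟪Wp p F y v w - fderiv ℝ F y (Gam (Gp p F) y v w), fderiv ℝ (fderiv ℝ F) y a b⟫_ℝ =
      ⟪Wp p F y v w, sff F y a b⟫_ℝ := by
    rw [hdec a b, inner_add_right, inner_sub_left, inner_sub_left, Gam_inner hF hinj,
      real_inner_comm (sff F y a b) (fderiv ℝ F y _), sff_inner hinj]
    ring
  rw [h1]
  unfold Wp
  rw [inner_sub_left, inner_sub_left, inner_add_left, real_inner_smul_left, real_inner_smul_left,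
    real_inner_smul_left, hdec v w, inner_add_left,
    real_inner_comm (sff F y a b) (fderiv ℝ F y _), sff_inner hinj,
    real_inner_comm (sff F y a b) (fderiv ℝ F y w), sff_inner hinj,
    real_inner_comm (sff F y a b) (fderiv ℝ F y v), sff_inner hinj]
  ring

theorem curv_formula (hF : ∀ᶠ x in 𝓝 y, ContDiffAt ℝ ∞ F x)
    (hinj : Function.Injective (fderiv ℝ F y)) (p : ℝ) (u v : V)
    (huv : ⟪fderiv ℝ F y u, fderiv ℝ F y v⟫_ℝ = 0) :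
    ⟪fderiv ℝ F y (curv (Gp p F) y u v v), fderiv ℝ F y u⟫_ℝ =
      ⟪sff F y u u, sff F y v v⟫_ℝ - ⟪sff F y u v, sff F y u v⟫_ℝ
        + p * (2 * ⟪fderiv ℝ F y u, fderiv ℝ F y u⟫_ℝ * ⟪fderiv ℝ F y v, fderiv ℝ F y v⟫_ℝ
          + ⟪fderiv ℝ F y v, fderiv ℝ F y v⟫_ℝ * ⟪F y, sff F y u u⟫_ℝ
          + ⟪fderiv ℝ F y u, fderiv ℝ F y u⟫_ℝ * ⟪F y, sff F y v v⟫_ℝ)
        + p ^ 2 * (⟪fderiv ℝ F y u, fderiv ℝ F y u⟫_ℝ * ⟪F y, fderiv ℝ F y v⟫_ℝ ^ 2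
          + ⟪fderiv ℝ F y v, fderiv ℝ F y v⟫_ℝ * ⟪F y, fderiv ℝ F y u⟫_ℝ ^ 2
          - ⟪F y, fderiv ℝ F y (lft (fderiv ℝ F y) (F y))⟫_ℝ
            * ⟪fderiv ℝ F y u, fderiv ℝ F y u⟫_ℝ * ⟪fderiv ℝ F y v, fderiv ℝ F y v⟫_ℝ) := by
  have hF0 := hF.self_of_nhds
  have k1 := key hF hinj p u v v u (dd_Wp hF0 p u v v)
  have k2 := key hF hinj p v u v u (dd_Wp hF0 p v u v)
  rw [normal_term hF0 hinj] at k1 k2
  have g1 := Gam_inner hF0 hinj p u (Gam (Gp p F) y v v) u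
  have g2 := Gam_inner hF0 hinj p v (Gam (Gp p F) y u v) u
  unfold curv
  rw [map_sub, map_add, map_sub, inner_sub_left, inner_add_left, inner_sub_left, k1, k2, g1, g2]
  have hvu : ⟪fderiv ℝ F y v, fderiv ℝ F y u⟫_ℝ = 0 := by rw [real_inner_comm]; exact huv
  have hq : ∀ z, ⟪F y, fderiv ℝ F y z⟫_ℝ =
      ⟪fderiv ℝ F y (lft (fderiv ℝ F y) (F y)), fderiv ℝ F y z⟫_ℝ := fun z =>
    (lft_inner hinj _ _).symm
  have c1 : ⟪fderiv ℝ F y u, fderiv ℝ F y (Gam (Gp p F) y v v)⟫_ℝ =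
      ⟪fderiv ℝ F y (Gam (Gp p F) y v v), fderiv ℝ F y u⟫_ℝ := real_inner_comm _ _
  have c2 : ⟪F y, fderiv ℝ F y (Gam (Gp p F) y v v)⟫_ℝ =
      ⟪fderiv ℝ (fderiv ℝ F) y v v, fderiv ℝ F y (lft (fderiv ℝ F y) (F y))⟫_ℝ
        + p * ⟪fderiv ℝ F y v, fderiv ℝ F y v⟫_ℝ
          * ⟪F y, fderiv ℝ F y (lft (fderiv ℝ F y) (F y))⟫_ℝ
        - 2 * p * ⟪F y, fderiv ℝ F y v⟫_ℝ ^ 2 := by
    rw [hq (Gam (Gp p F) y v v), real_inner_comm, Gam_inner hF0 hinj]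
    unfold Wp
    rw [inner_sub_left, inner_sub_left, inner_add_left, real_inner_smul_left,
      real_inner_smul_left, real_inner_comm (fderiv ℝ F y (lft (fderiv ℝ F y) (F y)))
        (fderiv ℝ F y v), ← hq v]
    ring
  have c3 : ⟪fderiv ℝ F y v, fderiv ℝ F y (Gam (Gp p F) y u v)⟫_ℝ =
      ⟪fderiv ℝ (fderiv ℝ F) y u v, fderiv ℝ F y v⟫_ℝ
        - p * ⟪F y, fderiv ℝ F y u⟫_ℝ * ⟪fderiv ℝ F y v, fderiv ℝ F y v⟫_ℝ := by
    rw [real_inner_comm, Gam_inner hF0 hinj]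
    unfold Wp
    rw [inner_sub_left, inner_sub_left, inner_add_left, real_inner_smul_left,
      real_inner_smul_left, real_inner_smul_left, huv]
    ring
  have c4 : ⟪fderiv ℝ F y (Gam (Gp p F) y u v), fderiv ℝ F y u⟫_ℝ =
      ⟪fderiv ℝ (fderiv ℝ F) y u v, fderiv ℝ F y u⟫_ℝ
        - p * ⟪F y, fderiv ℝ F y v⟫_ℝ * ⟪fderiv ℝ F y u, fderiv ℝ F y u⟫_ℝ := by
    rw [Gam_inner hF0 hinj]
    unfold Wp
    rw [inner_sub_left, inner_sub_left, inner_add_left, real_inner_smul_left,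
      real_inner_smul_left, real_inner_smul_left, huv, hvu]
    ring
  have c5 : ⟪fderiv ℝ F y u, fderiv ℝ (fderiv ℝ F) y v v⟫_ℝ =
      ⟪fderiv ℝ (fderiv ℝ F) y v v, fderiv ℝ F y u⟫_ℝ := real_inner_comm _ _
  have c5' : ⟪fderiv ℝ F y v, fderiv ℝ (fderiv ℝ F) y u v⟫_ℝ =
      ⟪fderiv ℝ (fderiv ℝ F) y u v, fderiv ℝ F y v⟫_ℝ := real_inner_comm _ _
  have c6 : ⟪F y, fderiv ℝ (fderiv ℝ F) y v v⟫_ℝ = ⟪F y, sff F y v v⟫_ℝ +
      ⟪fderiv ℝ (fderiv ℝ F) y v v, fderiv ℝ F y (lft (fderiv ℝ F y) (F y))⟫_ℝ := by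
    rw [← lft_inner hinj (fderiv ℝ (fderiv ℝ F) y v v), real_inner_comm
      (fderiv ℝ F y (lft (fderiv ℝ F y) (F y))), ← hq, sff_eq hinj, inner_sub_right]
    ring
  have c7 : ⟪sff F y v v, sff F y u u⟫_ℝ = ⟪sff F y u u, sff F y v v⟫_ℝ := real_inner_comm _ _
  unfold Wp
  simp only [inner_add_left, inner_sub_left, real_inner_smul_left]
  rw [symm3 hF0 v u, symm2 hF0 v u, sff_symm hF0 v u, c1, c2, c3, c4, c5, c5', c6, c7, hvu, huv]
  ring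

end

end Pool.Agent.X180.NC
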