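import Pool.Agent.X180.NC.Formula

/-!
Curvature in orthonormal frames.
-/

set_option autoImplicit false
set_option linter.unusedSectionVars false

namespace Pool.Agent.X180.NC

open scoped ContDiff Manifold InnerProductSpace Topology

variable {V W : Type*} [NormedAddCommGroup V] [InnerProductSpace ℝ V] [FiniteDimensional ℝ V]
  [CompleteSpace V] [NormedAddCommGroup W] [InnerProductSpace ℝ W]
  [FiniteDimensional ℝ W] [CompleteSpace W]
  {F : V → W} {y : V}

theorem sff_smul_left (r : ℝ) (u v : V) : sff F y (r • u) v = r • sff F y u v := by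
  unfold sff
  rw [map_smul, smul_apply, map_smul]

theorem sff_smul_right (r : ℝ) (u v : V) : sff F y u (r • v) = r • sff F y u v := by
  unfold sff
  rw [map_smul, map_smul]

theorem sff_add_left (u u' v : V) : sff F y (u + u') v = sff F y u v + sff F y u' v := by
  unfold sff
  rw [map_add, add_apply, map_add]

theorem sff_add_right (u v v' : V) : sff F y u (v + v') = sff F y u v + sff F y u v' := by
  unfold sff
  rw [map_add, map_add]

/-- The tangential part of the squared norm of the position vector. -/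
noncomputable def tq (F : V → W) (y : V) : ℝ :=
  ⟪F y, fderiv ℝ F y (lft (fderiv ℝ F y) (F y))⟫_ℝ

/-- The (unnormalised) sectional curvature on orthonormal vectors of the induced metric. -/
noncomputable def K1 (p : ℝ) (F : V → W) (y u v : V) : ℝ :=
  ⟪sff F y u u, sff F y v v⟫_ℝ - ⟪sff F y u v, sff F y u v⟫_ℝ
    + p * (2 + ⟪F y, sff F y u u⟫_ℝ + ⟪F y, sff F y v v⟫_ℝ)
    + p ^ 2 * (⟪F y, fderiv ℝ F y v⟫_ℝ ^ 2 + ⟪F y, fderiv ℝ F y u⟫_ℝ ^ 2 - tq F y)

theorem K1_symm (hF : ContDiffAt ℝ ∞ F y) (p : ℝ) (u v : V) :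
    K1 p F y u v = K1 p F y v u := by
  unfold K1
  rw [sff_symm hF v u, real_inner_comm (sff F y u u) (sff F y v v)]
  ring

/-- The scale factor. -/
noncomputable def rho (p : ℝ) (F : V → W) (y : V) : ℝ := Real.exp (-p * ‖F y‖ ^ 2)

theorem rho_pos (p : ℝ) : 0 < rho p F y := Real.exp_pos _

/-- A frame rescaled to the induced metric. -/
noncomputable def resc (p : ℝ) (F : V → W) (y : V) {n : ℕ} (e : Fin n → V) (i : Fin n) : V :=
  Real.sqrt (rho p F y) • e i

theorem resc_ortho {p : ℝ} {n : ℕ} {e : Fin n → V} (he : IsFrame (Gp p F) y e) (i j : Fin n) :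
    ⟪fderiv ℝ F y (resc p F y e i), fderiv ℝ F y (resc p F y e j)⟫_ℝ = if i = j then 1 else 0 := by
  rw [← he i j]
  unfold resc Gp
  rw [map_smul, map_smul, real_inner_smul_left, real_inner_smul_right, ← mul_assoc,
    Real.mul_self_sqrt (rho_pos p).le]
  rfl

theorem frame_curv (hF : ∀ᶠ x in 𝓝 y, ContDiffAt ℝ ∞ F x)
    (hinj : Function.Injective (fderiv ℝ F y)) {p : ℝ} {n : ℕ} {e : Fin n → V}
    (he : IsFrame (Gp p F) y e) {i j : Fin n} (hij : i ≠ j) :
    rho p F y * Gp p F y (curv (Gp p F) y (e i) (e j) (e j)) (e i) =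
      K1 p F y (resc p F y e i) (resc p F y e j) := by
  have hr := rho_pos (F := F) (y := y) p
  have h0 : rho p F y * ⟪fderiv ℝ F y (e i), fderiv ℝ F y (e j)⟫_ℝ = 0 := by
    have := he i j
    rw [if_neg hij] at this
    exact this
  have h0' : ⟪fderiv ℝ F y (e i), fderiv ℝ F y (e j)⟫_ℝ = 0 := by
    rcases mul_eq_zero.mp h0 with h | h
    · exact absurd h hr.ne'
    · exact h
  have hi : rho p F y * ⟪fderiv ℝ F y (e i), fderiv ℝ F y (e i)⟫_ℝ = 1 := by
    have := he i i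
    rw [if_pos rfl] at this
    exact this
  have hj : rho p F y * ⟪fderiv ℝ F y (e j), fderiv ℝ F y (e j)⟫_ℝ = 1 := by
    have := he j j
    rw [if_pos rfl] at this
    exact this
  have h1 : Gp p F y (curv (Gp p F) y (e i) (e j) (e j)) (e i) = rho p F y *
      ⟪fderiv ℝ F y (curv (Gp p F) y (e i) (e j) (e j)), fderiv ℝ F y (e i)⟫_ℝ := rfl
  rw [h1, curv_formula hF hinj p (e i) (e j) h0']
  unfold K1 resc tq
  simp only [sff_smul_left, sff_smul_right, map_smul, real_inner_smul_left,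
    real_inner_smul_right]
  have hs : Real.sqrt (rho p F y) * Real.sqrt (rho p F y) = rho p F y :=
    Real.mul_self_sqrt hr.le
  set s := Real.sqrt (rho p F y) with hsdef
  set ρ := rho p F y with hρ
  clear_value s ρ
  subst hs
  set a := ⟪fderiv ℝ F y (e i), fderiv ℝ F y (e i)⟫_ℝ
  set b := ⟪fderiv ℝ F y (e j), fderiv ℝ F y (e j)⟫_ℝ
  set x1 := ⟪F y, sff F y (e i) (e i)⟫_ℝ
  set x2 := ⟪F y, sff F y (e j) (e j)⟫_ℝ
  set x3 := ⟪F y, fderiv ℝ F y (e i)⟫_ℝ
  set x4 := ⟪F y, fderiv ℝ F y (e j)⟫_ℝ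
  set x5 := ⟪F y, fderiv ℝ F y (lft (fderiv ℝ F y) (F y))⟫_ℝ
  linear_combination (2 * p * s * s * b + p * s * s * x2 + p ^ 2 * s * s * x4 ^ 2
    - p ^ 2 * x5 * s * s * b) * hi + (2 * p  + p * s * s * x1 + p ^ 2 * s * s * x3 ^ 2
    - p ^ 2 * x5) * hj

theorem curv_self (G : V → V → V → ℝ) (y u w : V) : curv G y u u w = 0 := by
  unfold curv
  abel

/-- The polarised bound. -/
theorem polar {c : ℝ} (hc : ∀ u, ‖sff F y u u‖ ≤ c * ‖fderiv ℝ F y u‖ ^ 2)
    (hF : ContDiffAt ℝ ∞ F y) {u v : V}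
    (hu : ⟪fderiv ℝ F y u, fderiv ℝ F y u⟫_ℝ = 1) (hv : ⟪fderiv ℝ F y v, fderiv ℝ F y v⟫_ℝ = 1)
    (huv : ⟪fderiv ℝ F y u, fderiv ℝ F y v⟫_ℝ = 0) :
    ⟪sff F y u v, sff F y u v⟫_ℝ ≤ c ^ 2 - 1 / 4 *
      (⟪sff F y u u, sff F y u u⟫_ℝ + 2 * ⟪sff F y u u, sff F y v v⟫_ℝ
        + ⟪sff F y v v, sff F y v v⟫_ℝ) := by
  have h1 := hc (u + v)
  have h2 := hc (u - v)
  have e1 : ‖fderiv ℝ F y (u + v)‖ ^ 2 = 2 := by
    rw [← real_inner_self_eq_norm_sq, map_add, inner_add_left, inner_add_right, inner_add_right,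
      real_inner_comm (fderiv ℝ F y u) (fderiv ℝ F y v), hu, hv, huv]
    norm_num
  have e2 : ‖fderiv ℝ F y (u - v)‖ ^ 2 = 2 := by
    rw [← real_inner_self_eq_norm_sq, map_sub, inner_sub_left, inner_sub_right, inner_sub_right,
      real_inner_comm (fderiv ℝ F y u) (fderiv ℝ F y v), hu, hv, huv]
    norm_num
  have d1 : sff F y (u + v) (u + v) = sff F y u u + (2 : ℝ) • sff F y u v + sff F y v v := by
    rw [sff_add_left, sff_add_right, sff_add_right, sff_symm hF v u, two_smul]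
    abel
  have d2 : sff F y (u - v) (u - v) = sff F y u u - (2 : ℝ) • sff F y u v + sff F y v v := by
    have hneg : u - v = u + (-1 : ℝ) • v := by rw [neg_one_smul, sub_eq_add_neg]
    rw [hneg, sff_add_left, sff_add_right, sff_add_right, sff_smul_left, sff_smul_right,
      sff_smul_left, sff_smul_right, sff_symm hF v u, two_smul]
    simp only [neg_smul, one_smul, neg_neg]
    abel
  rw [e1, d1] at h1
  rw [e2, d2] at h2
  have q1 : ‖sff F y u u + (2 : ℝ) • sff F y u v + sff F y v v‖ ^ 2 ≤ (c * 2) ^ 2 :=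
    pow_le_pow_left₀ (norm_nonneg _) h1 2
  have q2 : ‖sff F y u u - (2 : ℝ) • sff F y u v + sff F y v v‖ ^ 2 ≤ (c * 2) ^ 2 :=
    pow_le_pow_left₀ (norm_nonneg _) h2 2
  rw [← real_inner_self_eq_norm_sq] at q1 q2
  simp only [inner_add_left, inner_add_right, inner_sub_left, inner_sub_right,
    real_inner_smul_left, real_inner_smul_right] at q1 q2
  rw [real_inner_comm (sff F y u u) (sff F y u v), real_inner_comm (sff F y u u) (sff F y v v),
    real_inner_comm (sff F y u v) (sff F y v v)] at q1 q2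
  linarith

/-- The positivity of the sum of three sectional curvatures. -/
theorem triple_pos {c : ℝ} (hc1 : c ^ 2 < 9 / 5)
    (hc : ∀ u, ‖sff F y u u‖ ≤ c * ‖fderiv ℝ F y u‖ ^ 2)
    (hF : ContDiffAt ℝ ∞ F y) (hinj : Function.Injective (fderiv ℝ F y))
    (hΦ : ‖F y‖ ^ 2 + 5 / 4 * tq F y ≤ 1) {u : Fin 3 → V}
    (hu : ∀ i j, ⟪fderiv ℝ F y (u i), fderiv ℝ F y (u j)⟫_ℝ = if i = j then 1 else 0) :
    0 < K1 (9 / 4) F y (u 0) (u 1) + K1 (9 / 4) F y (u 0) (u 2) + K1 (9 / 4) F y (u 1) (u 2) := by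
  have hn : ∀ i, ⟪sff F y (u i) (u i), sff F y (u i) (u i)⟫_ℝ ≤ c ^ 2 := by
    intro i
    have h1 := hc (u i)
    have h2 : ‖fderiv ℝ F y (u i)‖ ^ 2 = 1 := by
      rw [← real_inner_self_eq_norm_sq, hu i i, if_pos rfl]
    rw [h2, mul_one] at h1
    rw [real_inner_self_eq_norm_sq]
    exact pow_le_pow_left₀ (norm_nonneg _) h1 2
  have p01 := polar hc hF (u := u 0) (v := u 1) (by rw [hu]; rfl) (by rw [hu]; rfl)
    (by rw [hu]; rfl)
  have p02 := polar hc hF (u := u 0) (v := u 2) (by rw [hu]; rfl) (by rw [hu]; rfl)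
    (by rw [hu]; rfl)
  have p12 := polar hc hF (u := u 1) (v := u 2) (by rw [hu]; rfl) (by rw [hu]; rfl)
    (by rw [hu]; rfl)
  have hfn : ∀ i, ⟪F y - fderiv ℝ F y (lft (fderiv ℝ F y) (F y)), sff F y (u i) (u i)⟫_ℝ
      = ⟪F y, sff F y (u i) (u i)⟫_ℝ := by
    intro i
    rw [inner_sub_left, real_inner_comm (sff F y (u i) (u i)) (fderiv ℝ F y _),
      sff_inner hinj, sub_zero]
  have hfnn : ⟪F y - fderiv ℝ F y (lft (fderiv ℝ F y) (F y)),
      F y - fderiv ℝ F y (lft (fderiv ℝ F y) (F y))⟫_ℝ = ‖F y‖ ^ 2 - tq F y := by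
    have h1 : ⟪F y - fderiv ℝ F y (lft (fderiv ℝ F y) (F y)),
        fderiv ℝ F y (lft (fderiv ℝ F y) (F y))⟫_ℝ = 0 := by
      rw [inner_sub_left, lft_inner hinj, sub_self]
    rw [inner_sub_right, h1, sub_zero, inner_sub_left,
      real_inner_self_eq_norm_sq, real_inner_comm (F y) (fderiv ℝ F y _)]
    rfl
  have hsq := real_inner_self_nonneg (x := sff F y (u 0) (u 0) + sff F y (u 1) (u 1)
    + sff F y (u 2) (u 2)
    + (3 : ℝ) • (F y - fderiv ℝ F y (lft (fderiv ℝ F y) (F y))))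
  simp only [inner_add_left (sff F y (u 0) (u 0)), inner_add_left, inner_add_right,
    real_inner_smul_left, real_inner_smul_right] at hsq
  rw [hfn, hfn, hfn, hfnn,
    real_inner_comm (F y - fderiv ℝ F y (lft (fderiv ℝ F y) (F y))) (sff F y (u 0) (u 0)),
    real_inner_comm (F y - fderiv ℝ F y (lft (fderiv ℝ F y) (F y))) (sff F y (u 1) (u 1)),
    real_inner_comm (F y - fderiv ℝ F y (lft (fderiv ℝ F y) (F y))) (sff F y (u 2) (u 2)),
    hfn, hfn, hfn,
    real_inner_comm (sff F y (u 0) (u 0)) (sff F y (u 1) (u 1)),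
    real_inner_comm (sff F y (u 0) (u 0)) (sff F y (u 2) (u 2)),
    real_inner_comm (sff F y (u 1) (u 1)) (sff F y (u 2) (u 2))] at hsq
  have n0 := hn 0
  have n1 := hn 1
  have n2 := hn 2
  unfold K1
  nlinarith [sq_nonneg ⟪F y, fderiv ℝ F y (u 0)⟫_ℝ, sq_nonneg ⟪F y, fderiv ℝ F y (u 1)⟫_ℝ,
    sq_nonneg ⟪F y, fderiv ℝ F y (u 2)⟫_ℝ]

end Pool.Agent.X180.NC
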