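import Pool.Agent.X180.NC.Local

/-!
The left inverse of an injective linear map.
-/

set_option autoImplicit false
set_option linter.unusedSectionVars false

namespace Pool.Agent.X180.NC

open scoped ContDiff Manifold InnerProductSpace Topology

variable {V W : Type*} [NormedAddCommGroup V] [InnerProductSpace ℝ V] [FiniteDimensional ℝ V]
  [CompleteSpace V] [NormedAddCommGroup W] [InnerProductSpace ℝ W]
  [FiniteDimensional ℝ W] [CompleteSpace W]

/-- The adjoint as a continuous linear map on operators. -/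
noncomputable def adj : (V →L[ℝ] W) →L[ℝ] (W →L[ℝ] V) :=
  LinearMap.toContinuousLinearMap
    { toFun := fun B => ContinuousLinearMap.adjoint B
      map_add' := fun a b => by simp
      map_smul' := fun c a => by
        ext x
        simp }

theorem adj_inner (B : V →L[ℝ] W) (z : W) (w : V) :
    ⟪adj B z, w⟫_ℝ = ⟪z, B w⟫_ℝ := by
  change ⟪ContinuousLinearMap.adjoint B z, w⟫_ℝ = _
  rw [ContinuousLinearMap.adjoint_inner_left]

/-- `B† B`. -/
noncomputable def gram (B : V →L[ℝ] W) : V →L[ℝ] V := (adj B).comp B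

theorem gram_inner (B : V →L[ℝ] W) (z w : V) :
    ⟪gram B z, w⟫_ℝ = ⟪B z, B w⟫_ℝ := by
  change ⟪adj B (B z), w⟫_ℝ = _
  rw [adj_inner]

theorem gram_isUnit {B : V →L[ℝ] W} (hB : Function.Injective B) : IsUnit (gram B) := by
  have hinj : Function.Injective (gram B : V →ₗ[ℝ] V) := by
    rw [← LinearMap.ker_eq_bot, LinearMap.ker_eq_bot']
    intro z hz
    have h1 : ⟪B z, B z⟫_ℝ = 0 := by
      rw [← gram_inner]
      change ⟪(gram B : V →ₗ[ℝ] V) z, z⟫_ℝ = 0
      rw [hz, inner_zero_left]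
    have h2 : B z = 0 := inner_self_eq_zero.mp h1
    exact hB (by rw [h2, map_zero])
  let e := LinearEquiv.ofInjectiveEndo (gram B : V →ₗ[ℝ] V) hinj
  let e' := e.toContinuousLinearEquiv
  have : (e' : V →L[ℝ] V) = gram B := by
    ext1 z
    rfl
  rw [← this]
  exact ⟨ContinuousLinearEquiv.toUnit e', rfl⟩

/-- The left inverse `(B† B)⁻¹ B†`. -/
noncomputable def lft (B : V →L[ℝ] W) : W →L[ℝ] V :=
  (Ring.inverse (gram B)).comp (adj B)

theorem lft_inner {B : V →L[ℝ] W} (hB : Function.Injective B) (z : W) (w : V) :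
    ⟪B (lft B z), B w⟫_ℝ = ⟪z, B w⟫_ℝ := by
  have h := Ring.mul_inverse_cancel _ (gram_isUnit hB)
  have h2 : gram B (Ring.inverse (gram B) (adj B z)) = adj B z := by
    have := congrArg (fun T : V →L[ℝ] V => T (adj B z)) h
    simpa using this
  rw [← gram_inner]
  change ⟪gram B (Ring.inverse (gram B) (adj B z)), w⟫_ℝ = _
  rw [h2, adj_inner]

theorem inner_ext {B : V →L[ℝ] W} (hB : Function.Injective B) {z z' : V}
    (h : ∀ w, ⟪B z, B w⟫_ℝ = ⟪B z', B w⟫_ℝ) : z = z' := by
  apply hB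
  rw [← sub_eq_zero, ← inner_self_eq_zero (𝕜 := ℝ), ← map_sub, map_sub, inner_sub_left]
  have := h (z - z')
  rw [map_sub] at this
  linarith

theorem contDiffAt_lft {k : WithTop ℕ∞} {B : V → V →L[ℝ] W} {y : V}
    (hB : ContDiffAt ℝ k B y) (hinj : Function.Injective (B y)) :
    ContDiffAt ℝ k (fun x => lft (B x)) y := by
  unfold lft gram
  have h1 : ContDiffAt ℝ k (fun x => adj (B x)) y :=
    (adj (V := V) (W := W)).contDiff.contDiffAt.comp y hB
  have h2 : ContDiffAt ℝ k (fun x => (adj (B x)).comp (B x)) y := h1.clm_comp hB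
  refine ContDiffAt.clm_comp ?_ h1
  obtain ⟨U, hU⟩ := gram_isUnit hinj
  have h3 : ContDiffAt ℝ k Ring.inverse ((adj (B y)).comp (B y)) := by
    have := contDiffAt_ringInverse ℝ U (n := k)
    rw [hU] at this
    exact this
  exact h3.comp y h2

theorem eventually_injective {B : V → V →L[ℝ] W} {y : V}
    (hB : ContinuousAt B y) (hinj : Function.Injective (B y)) :
    ∀ᶠ x in 𝓝 y, Function.Injective (B x) := by
  obtain ⟨U, hU⟩ := gram_isUnit hinj
  have h1 : ContinuousAt (fun x => gram (B x)) y := by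
    unfold gram
    exact ((adj (V := V) (W := W)).continuous.continuousAt.comp hB).clm_comp hB
  have h2 : ∀ᶠ x in 𝓝 y, IsUnit (gram (B x)) := by
    apply h1.eventually
    have h0 := Units.nhds U
    rw [hU] at h0
    exact h0
  filter_upwards [h2] with x hx
  obtain ⟨U2, hU2⟩ := hx
  intro a b hab
  have h3 : gram (B x) a = gram (B x) b := by
    change adj (B x) (B x a) = adj (B x) (B x b)
    rw [hab]
  have h4 : ((U2⁻¹ : (V →L[ℝ] V)ˣ) : V →L[ℝ] V) (gram (B x) a)
      = ((U2⁻¹ : (V →L[ℝ] V)ˣ) : V →L[ℝ] V) (gram (B x) b) := by rw [h3]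
  rw [← hU2] at h4
  have h5 : ((U2⁻¹ : (V →L[ℝ] V)ˣ) : V →L[ℝ] V) * (U2 : V →L[ℝ] V) = 1 :=
    U2.inv_mul
  have h6 : ∀ c, ((U2⁻¹ : (V →L[ℝ] V)ˣ) : V →L[ℝ] V) ((U2 : V →L[ℝ] V) c) = c := by
    intro c
    exact congrArg (fun T : V →L[ℝ] V => T c) h5
  rw [h6, h6] at h4
  exact h4

end Pool.Agent.X180.NC
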