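import Pool.Agent.X180.NC.Defs

/-!
Directional derivative calculus and the curvature of the metric `exp(-p |F|²) ⟨dF, dF⟩`.
-/

set_option autoImplicit false

namespace Pool.Agent.X180.NC

open scoped ContDiff Manifold InnerProductSpace Topology

section DD

variable {V Z Z' : Type*} [NormedAddCommGroup V] [NormedSpace ℝ V]
  [NormedAddCommGroup Z] [NormedSpace ℝ Z] [NormedAddCommGroup Z'] [NormedSpace ℝ Z']

/-- `g` is differentiable at `y`, with derivative `g'` in the direction `u`. -/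
def DD (y u : V) (g : V → Z) (g' : Z) : Prop := ∃ L : V →L[ℝ] Z, HasFDerivAt g L y ∧ L u = g'

theorem DD.unique {y u : V} {g : V → Z} {a b : Z} (h : DD y u g a) (h' : DD y u g b) : a = b := by
  obtain ⟨L, hL, rfl⟩ := h
  obtain ⟨L', hL', rfl⟩ := h'
  rw [hL.unique hL']

theorem DD.of_diff {y u : V} {g : V → Z} (h : DifferentiableAt ℝ g y) :
    DD y u g (fderiv ℝ g y u) := ⟨_, h.hasFDerivAt, rfl⟩

theorem DD.fderiv_eq {y u : V} {g : V → Z} {a : Z} (h : DD y u g a) : fderiv ℝ g y u = a := by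
  obtain ⟨L, hL, rfl⟩ := h
  rw [hL.fderiv]

theorem DD.congr {y u : V} {g h : V → Z} {a : Z} (hg : DD y u g a) (he : h =ᶠ[𝓝 y] g) :
    DD y u h a := by
  obtain ⟨L, hL, rfl⟩ := hg
  exact ⟨L, hL.congr_of_eventuallyEq he, rfl⟩

theorem DD.const (y u : V) (c : Z) : DD y u (fun _ => c) 0 :=
  ⟨0, hasFDerivAt_const c y, rfl⟩

theorem DD.add {y u : V} {g h : V → Z} {a b : Z} (hg : DD y u g a) (hh : DD y u h b) :
    DD y u (fun x => g x + h x) (a + b) := by
  obtain ⟨L, hL, rfl⟩ := hg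
  obtain ⟨L', hL', rfl⟩ := hh
  exact ⟨L + L', hL.add hL', rfl⟩

theorem DD.sub {y u : V} {g h : V → Z} {a b : Z} (hg : DD y u g a) (hh : DD y u h b) :
    DD y u (fun x => g x - h x) (a - b) := by
  obtain ⟨L, hL, rfl⟩ := hg
  obtain ⟨L', hL', rfl⟩ := hh
  exact ⟨L - L', hL.sub hL', rfl⟩

theorem DD.smul {y u : V} {c : V → ℝ} {g : V → Z} {a : ℝ} {b : Z} (hc : DD y u c a)
    (hg : DD y u g b) : DD y u (fun x => c x • g x) (c y • b + a • g y) := by
  obtain ⟨L, hL, rfl⟩ := hc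
  obtain ⟨L', hL', rfl⟩ := hg
  exact ⟨_, hL.smul hL', by simp⟩

theorem DD.mul {y u : V} {c d : V → ℝ} {a b : ℝ} (hc : DD y u c a)
    (hd : DD y u d b) : DD y u (fun x => c x * d x) (c y * b + a * d y) :=
  DD.smul hc hd

theorem DD.clm {y u : V} {B : V → Z →L[ℝ] Z'} {g : V → Z} {B' : Z →L[ℝ] Z'} {b : Z}
    (hB : DD y u B B') (hg : DD y u g b) : DD y u (fun x => B x (g x)) (B y b + B' (g y)) := by
  obtain ⟨L, hL, rfl⟩ := hB
  obtain ⟨L', hL', rfl⟩ := hg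
  exact ⟨_, hL.clm_apply hL', by simp⟩

theorem DD.clm_const {y u : V} {B : V → Z →L[ℝ] Z'} {B' : Z →L[ℝ] Z'}
    (hB : DD y u B B') (z : Z) : DD y u (fun x => B x z) (B' z) := by
  have := hB.clm (DD.const y u z)
  simpa using this

theorem DD.exp {y u : V} {c : V → ℝ} {a : ℝ} (hc : DD y u c a) :
    DD y u (fun x => Real.exp (c x)) (Real.exp (c y) * a) := by
  obtain ⟨L, hL, rfl⟩ := hc
  exact ⟨_, hL.exp, by simp⟩

end DD

section DDInner

variable {V Z : Type*} [NormedAddCommGroup V] [NormedSpace ℝ V]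
  [NormedAddCommGroup Z] [InnerProductSpace ℝ Z]

theorem DD.inner {y u : V} {g h : V → Z} {a b : Z} (hg : DD y u g a) (hh : DD y u h b) :
    DD y u (fun x => ⟪g x, h x⟫_ℝ) (⟪g y, b⟫_ℝ + ⟪a, h y⟫_ℝ) := by
  obtain ⟨L, hL, rfl⟩ := hg
  obtain ⟨L', hL', rfl⟩ := hh
  exact ⟨_, hL.inner ℝ hL', by simp⟩

end DDInner

end Pool.Agent.X180.NC
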