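import Pool.Agent.X180.NC.Frame

/-!
The maximum principle for `|F|² + κ |Fᵀ|²`, and condition (R) at a point.
-/

set_option autoImplicit false
set_option linter.unusedSectionVars false

namespace Pool.Agent.X180.NC

open scoped ContDiff Manifold InnerProductSpace Topology

variable {V W : Type*} [NormedAddCommGroup V] [InnerProductSpace ℝ V] [FiniteDimensional ℝ V]
  [CompleteSpace V] [NormedAddCommGroup W] [InnerProductSpace ℝ W]
  [FiniteDimensional ℝ W] [CompleteSpace W]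
  {F : V → W} {y : V}

theorem tq_eq (hinj : Function.Injective (fderiv ℝ F y)) :
    tq F y = ‖fderiv ℝ F y (lft (fderiv ℝ F y) (F y))‖ ^ 2 := by
  unfold tq
  rw [← real_inner_self_eq_norm_sq, lft_inner hinj]

theorem tq_nonneg (hinj : Function.Injective (fderiv ℝ F y)) : 0 ≤ tq F y := by
  rw [tq_eq hinj]
  positivity

theorem dd_tq (hF : ∀ᶠ x in 𝓝 y, ContDiffAt ℝ ∞ F x)
    (hinj : Function.Injective (fderiv ℝ F y)) (a : V) :
    DD y a (tq F) (2 * ⟪fderiv ℝ F y a, fderiv ℝ F y (lft (fderiv ℝ F y) (F y))⟫_ℝ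
      + 2 * ⟪F y, sff F y a (lft (fderiv ℝ F y) (F y))⟫_ℝ) := by
  have hF0 := hF.self_of_nhds
  have hq : DD y a (fun x => lft (fderiv ℝ F x) (F x))
      (fderiv ℝ (fun x => lft (fderiv ℝ F x) (F x)) y a) := by
    apply DD.of_diff
    exact ((contDiffAt_lft (cd1 hF0) hinj).clm_apply hF0).differentiableAt (by norm_num)
  set q := lft (fderiv ℝ F y) (F y) with hqdef
  set q' := fderiv ℝ (fun x => lft (fderiv ℝ F x) (F x)) y a with hq'
  have hev : (fun x => ⟪fderiv ℝ F x (lft (fderiv ℝ F x) (F x)), fderiv ℝ F x q⟫_ℝ) =ᶠ[𝓝 y]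
      fun x => ⟪F x, fderiv ℝ F x q⟫_ℝ := by
    filter_upwards [evInj hF hinj] with x h2
    exact lft_inner h2 _ _
  have hBq := (dd1 hF0 a).clm hq
  have hBz := (dd1 hF0 a).clm_const q
  have h2 := hBq.inner hBz
  have h3 := (dd0 hF0 a).inner hBz
  have h4 := h2.unique (h3.congr hev)
  have h5 := (dd0 hF0 a).inner hBq
  have h6 : DD y a (tq F) _ := h5
  have h7 : ⟪F y, fderiv ℝ F y q'⟫_ℝ = ⟪fderiv ℝ F y q', fderiv ℝ F y q⟫_ℝ := by
    rw [← lft_inner hinj, real_inner_comm]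
  have h8 : ⟪F y, sff F y a q⟫_ℝ = ⟪F y, fderiv ℝ (fderiv ℝ F) y a q⟫_ℝ
      - ⟪fderiv ℝ F y q, fderiv ℝ (fderiv ℝ F) y a q⟫_ℝ := by
    rw [sff_eq hinj, inner_sub_right, ← lft_inner hinj (F y), ← hqdef,
      real_inner_comm (fderiv ℝ F y _) (fderiv ℝ F y q), lft_inner hinj,
      real_inner_comm (fderiv ℝ F y q)]
  convert h6 using 1
  rw [h8, inner_add_right, h7]
  rw [inner_add_left] at h4
  have h9 : ⟪fderiv ℝ (fderiv ℝ F) y a q, fderiv ℝ F y q⟫_ℝ =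
      ⟪fderiv ℝ F y q, fderiv ℝ (fderiv ℝ F) y a q⟫_ℝ := real_inner_comm _ _
  rw [← hqdef] at h4 ⊢
  rw [h9] at h4
  linarith

theorem max_principle (hF : ∀ᶠ x in 𝓝 y, ContDiffAt ℝ ∞ F x)
    (hinj : Function.Injective (fderiv ℝ F y)) {κ c : ℝ} (hκ : 0 ≤ κ)
    (hκc : κ * c < 1 + κ)
    (hc : ∀ u, ‖sff F y u u‖ ≤ c * ‖fderiv ℝ F y u‖ ^ 2) (hb : ‖F y‖ ≤ 1)
    (hmax : IsLocalMax (fun x => ‖F x‖ ^ 2 + κ * tq F x) y) : tq F y = 0 := by
  have hF0 := hF.self_of_nhds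
  set q := lft (fderiv ℝ F y) (F y) with hqdef
  have h1 : DD y q (fun x => ⟪F x, F x⟫_ℝ)
      (⟪F y, fderiv ℝ F y q⟫_ℝ + ⟪fderiv ℝ F y q, F y⟫_ℝ) := (dd0 hF0 q).inner (dd0 hF0 q)
  have h2 := h1.add ((DD.const y q κ).mul (dd_tq hF hinj q))
  have h3 : (fun x => ⟪F x, F x⟫_ℝ + κ * tq F x) = fun x => ‖F x‖ ^ 2 + κ * tq F x := by
    funext x
    rw [real_inner_self_eq_norm_sq]
  rw [h3] at h2
  have h4 := h2.fderiv_eq
  rw [hmax.fderiv_eq_zero, ← hqdef] at h4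
  have h5 : tq F y = ⟪F y, fderiv ℝ F y q⟫_ℝ := rfl
  have h6 : ⟪fderiv ℝ F y q, F y⟫_ℝ = ⟪F y, fderiv ℝ F y q⟫_ℝ := real_inner_comm _ _
  have h7 : ⟪fderiv ℝ F y q, fderiv ℝ F y q⟫_ℝ = tq F y := by
    rw [real_inner_self_eq_norm_sq, tq_eq hinj]
  have h8 : tq F y = ‖fderiv ℝ F y q‖ ^ 2 := tq_eq hinj
  have h9 := hc q
  have h10 := abs_real_inner_le_norm (F y) (sff F y q q)
  have h11 := tq_nonneg hinj
  have h12 : ‖F y‖ * ‖sff F y q q‖ ≤ 1 * (c * tq F y) := by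
    rw [h8]
    exact mul_le_mul hb h9 (norm_nonneg _) zero_le_one
  have h13 := neg_abs_le ⟪F y, sff F y q q⟫_ℝ
  rw [h6, ← h5, h7] at h4
  have h14 : (0 : V →L[ℝ] ℝ) q = 0 := rfl
  rw [h14] at h4
  have h15 : κ * ⟪F y, sff F y q q⟫_ℝ ≥ - (κ * (c * tq F y)) := by
    have : ⟪F y, sff F y q q⟫_ℝ ≥ -(c * tq F y) := by linarith
    nlinarith
  by_contra hne
  have hpos : 0 < tq F y := lt_of_le_of_ne h11 (Ne.symm hne)
  have : 0 < (1 + κ - κ * c) * tq F y := mul_pos (by linarith) hpos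
  nlinarith

theorem condR_Gp  (hF : ∀ᶠ x in 𝓝 y, ContDiffAt ℝ ∞ F x)
    (hinj : Function.Injective (fderiv ℝ F y)) {c : ℝ} (hc1 : c ^ 2 < 9 / 5)
    (hc : ∀ u, ‖sff F y u u‖ ≤ c * ‖fderiv ℝ F y u‖ ^ 2)
    (hΦ : ‖F y‖ ^ 2 + 5 / 4 * tq F y ≤ 1) : CondR (Gp (9 / 4) F) y := by
  intro e he k
  have hF0 := hF.self_of_nhds
  have hr := rho_pos (F := F) (y := y) (9 / 4)
  set a : Fin 4 → Fin 4 → ℝ := fun i j =>
    Gp (9 / 4) F y (curv (Gp (9 / 4) F) y (e i) (e j) (e j)) (e i) with ha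
  have haa : ∀ i, a i i = 0 := by
    intro i
    simp only [ha]
    rw [curv_self]
    unfold Gp
    simp
  have hK : ∀ i j, i ≠ j → rho (9 / 4) F y * a i j =
      K1 (9 / 4) F y (resc (9 / 4) F y e i) (resc (9 / 4) F y e j) := fun i j hij =>
    frame_curv hF hinj he hij
  have hsym : ∀ i j, a i j = a j i := by
    intro i j
    by_cases hij : i = j
    · rw [hij]
    · have h1 := hK i j hij
      have h2 := hK j i (Ne.symm hij)
      rw [K1_symm hF0] at h2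
      have h3 : rho (9 / 4) F y * a i j = rho (9 / 4) F y * a j i := h1.trans h2.symm
      exact mul_left_cancel₀ hr.ne' h3
  have htr : ∀ i j l : Fin 4, i ≠ j → i ≠ l → j ≠ l → 0 < a i j + a i l + a j l := by
    intro i j l hij hil hjl
    have hidx : ∀ s t : Fin 3, (![i, j, l] : Fin 3 → Fin 4) s = (![i, j, l] : Fin 3 → Fin 4) t
        ↔ s = t := by
      intro s t
      fin_cases s <;> fin_cases t <;> simp [hij, hil, hjl, hij.symm, hil.symm, hjl.symm]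
    have h1 := triple_pos hc1 hc hF0 hinj hΦ
      (u := fun s => resc (9 / 4) F y e ((![i, j, l] : Fin 3 → Fin 4) s)) (by
        intro s t
        rw [resc_ortho he]
        exact if_congr (hidx s t) rfl rfl)
    have h2 : 0 < rho (9 / 4) F y * (a i j + a i l + a j l) := by
      rw [mul_add, mul_add, hK i j hij, hK i l hil, hK j l hjl]
      exact h1
    exact (mul_pos_iff_of_pos_left hr).mp h2
  have hric : ∀ k, ric (Gp (9 / 4) F) y e (e k) = a 0 k + a 1 k + a 2 k + a 3 k := by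
    intro k
    unfold ric
    rw [Fin.sum_univ_four]
  have hscal : scal (Gp (9 / 4) F) y e = 2 * (a 0 1 + a 0 2 + a 0 3 + a 1 2 + a 1 3 + a 2 3) := by
    unfold scal
    rw [Fin.sum_univ_four, hric, hric, hric, hric, haa, haa, haa, haa, hsym 1 0, hsym 2 0,
      hsym 3 0, hsym 2 1, hsym 3 1, hsym 3 2]
    ring
  rw [hscal, hric]
  have t0 := htr 1 2 3 (by decide) (by decide) (by decide)
  have t1 := htr 0 2 3 (by decide) (by decide) (by decide)
  have t2 := htr 0 1 3 (by decide) (by decide) (by decide)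
  have t3 := htr 0 1 2 (by decide) (by decide) (by decide)
  have s10 := hsym 1 0
  have s20 := hsym 2 0
  have s30 := hsym 3 0
  have s21 := hsym 2 1
  have s31 := hsym 3 1
  have s32 := hsym 3 2
  have z0 := haa 0
  have z1 := haa 1
  have z2 := haa 2
  have z3 := haa 3
  fin_cases k
  · simp only [Fin.zero_eta]
    linarith
  · simp only [Fin.mk_one]
    linarith
  · change 2 * (a 0 2 + a 1 2 + a 2 2 + a 3 2) < _
    linarith
  · change 2 * (a 0 3 + a 1 3 + a 2 3 + a 3 3) < _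
    linarith

end Pool.Agent.X180.NC
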