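import Pool.Agent.X180.NC.MaxP

/-!
The global part: the maximum principle on a closed manifold.
-/

set_option autoImplicit false
set_option linter.unusedSectionVars false

namespace Pool.Agent.X180.NC

open scoped ContDiff Manifold InnerProductSpace Topology

variable {V W : Type*} [NormedAddCommGroup V] [InnerProductSpace ℝ V] [FiniteDimensional ℝ V]
  [CompleteSpace V] [NormedAddCommGroup W] [InnerProductSpace ℝ W]
  [FiniteDimensional ℝ W] [CompleteSpace W]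
  {X : Type*} [TopologicalSpace X] [ChartedSpace V X]

section

variable [IsManifold 𝓘(ℝ, V) ∞ X] {f : X → W}

theorem symm_contMDiffOn {φ : OpenPartialHomeomorph X V} (hφ : φ ∈ atlas V X) :
    ContMDiffOn 𝓘(ℝ, V) 𝓘(ℝ, V) ∞ φ.symm φ.target :=
  contMDiffOn_symm_of_mem_maximalAtlas (IsManifold.subset_maximalAtlas hφ)

theorem rep_contDiffAt (hf : ContMDiff 𝓘(ℝ, V) 𝓘(ℝ, W) ∞ f)
    {φ : OpenPartialHomeomorph X V} (hφ : φ ∈ atlas V X) {y : V} (hy : y ∈ φ.target) :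
    ContDiffAt ℝ ∞ (rep f φ) y := by
  have h2 : ContMDiffOn 𝓘(ℝ, V) 𝓘(ℝ, W) ∞ (rep f φ) φ.target :=
    hf.comp_contMDiffOn (symm_contMDiffOn hφ)
  exact (contMDiffOn_iff_contDiffOn.mp h2).contDiffAt (φ.open_target.mem_nhds hy)

theorem rep_ev (hf : ContMDiff 𝓘(ℝ, V) 𝓘(ℝ, W) ∞ f)
    {φ : OpenPartialHomeomorph X V} (hφ : φ ∈ atlas V X) {y : V} (hy : y ∈ φ.target) :
    ∀ᶠ x in 𝓝 y, ContDiffAt ℝ ∞ (rep f φ) x := by
  filter_upwards [φ.open_target.mem_nhds hy] with x hx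
  exact rep_contDiffAt hf hφ hx

/-- The derivative of `f` at `x`. -/
noncomputable def mf (f : X → W) (x : X) : V →L[ℝ] W :=
  mfderiv 𝓘(ℝ, V) 𝓘(ℝ, W) f x

theorem rep_fderiv (hf : ContMDiff 𝓘(ℝ, V) 𝓘(ℝ, W) ∞ f)
    {φ : OpenPartialHomeomorph X V} (hφ : φ ∈ atlas V X) {y : V} (hy : y ∈ φ.target) :
    ∃ e : V →L[ℝ] V, Function.Bijective e ∧
      fderiv ℝ (rep f φ) y = (mf (V := V) f (φ.symm y)).comp e := by
  have hm := mdifferentiable_of_mem_atlas (I := 𝓘(ℝ, V)) hφ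
  have hms := hm.symm
  refine ⟨mfderiv 𝓘(ℝ, V) 𝓘(ℝ, V) φ.symm y, ?_, ?_⟩
  · exact hms.mfderiv_bijective hy
  · rw [← mfderiv_eq_fderiv]
    have h1 : MDifferentiableAt 𝓘(ℝ, V) 𝓘(ℝ, V) φ.symm y := hms.mdifferentiableAt hy
    have h2 : MDifferentiableAt 𝓘(ℝ, V) 𝓘(ℝ, W) f (φ.symm y) :=
      (hf.contMDiffAt).mdifferentiableAt (by norm_num)
    exact mfderiv_comp y h2 h1

theorem rep_inj (hf : ContMDiff 𝓘(ℝ, V) 𝓘(ℝ, W) ∞ f)
    (himm : ∀ x, Function.Injective (mfderiv 𝓘(ℝ, V) 𝓘(ℝ, W) f x))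
    {φ : OpenPartialHomeomorph X V} (hφ : φ ∈ atlas V X) {y : V} (hy : y ∈ φ.target) :
    Function.Injective (fderiv ℝ (rep f φ) y) := by
  obtain ⟨e, he, h⟩ := rep_fderiv hf hφ hy
  rw [h]
  exact (himm (φ.symm y)).comp he.injective

theorem rep_range (hf : ContMDiff 𝓘(ℝ, V) 𝓘(ℝ, W) ∞ f)
    {φ : OpenPartialHomeomorph X V} (hφ : φ ∈ atlas V X) {y : V} (hy : y ∈ φ.target) :
    LinearMap.range (fderiv ℝ (rep f φ) y : V →ₗ[ℝ] W) =
      LinearMap.range (mf (V := V) f (φ.symm y) : V →ₗ[ℝ] W) := by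
  obtain ⟨e, he, h⟩ := rep_fderiv hf hφ hy
  rw [h]
  ext z
  constructor
  · rintro ⟨w, rfl⟩
    exact ⟨e w, rfl⟩
  · rintro ⟨w, rfl⟩
    obtain ⟨w', rfl⟩ := he.surjective w
    exact ⟨w', rfl⟩

/-- The function `|f|² + κ |fᵀ|²` on `X`. -/
noncomputable def Phi (V : Type*) [NormedAddCommGroup V] [InnerProductSpace ℝ V] [FiniteDimensional ℝ V]
    [ChartedSpace V X] (f : X → W) (κ : ℝ) (x : X) : ℝ :=
  ‖f x‖ ^ 2 + κ * ⟪f x, (LinearMap.range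
    (mf (V := V) f x : V →ₗ[ℝ] W)).starProjection (f x)⟫_ℝ

theorem Phi_rep (hf : ContMDiff 𝓘(ℝ, V) 𝓘(ℝ, W) ∞ f)
    (himm : ∀ x, Function.Injective (mfderiv 𝓘(ℝ, V) 𝓘(ℝ, W) f x)) (κ : ℝ)
    {φ : OpenPartialHomeomorph X V} (hφ : φ ∈ atlas V X) {y : V} (hy : y ∈ φ.target) :
    Phi V f κ (φ.symm y) = ‖rep f φ y‖ ^ 2 + κ * tq (rep f φ) y := by
  have hK : ∀ (K K' : Submodule ℝ (W)), K = K' → ∀ z, K.starProjection z
      = K'.starProjection z := by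
    rintro K _ rfl z
    rfl
  unfold Phi
  rw [hK _ _ (rep_range hf hφ hy).symm, proj_range (rep_inj hf himm hφ hy)]
  rfl

theorem tq_continuousAt {F : V → W} {y : V} (hF : ContDiffAt ℝ ∞ F y)
    (hinj : Function.Injective (fderiv ℝ F y)) : ContinuousAt (tq F) y := by
  unfold tq
  exact (hF.inner ℝ ((cd1 hF).clm_apply ((contDiffAt_lft (cd1 hF) hinj).clm_apply hF))).continuousAt

theorem Phi_continuous (hf : ContMDiff 𝓘(ℝ, V) 𝓘(ℝ, W) ∞ f)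
    (himm : ∀ x, Function.Injective (mfderiv 𝓘(ℝ, V) 𝓘(ℝ, W) f x)) (κ : ℝ) :
    Continuous (Phi V f κ) := by
  rw [continuous_iff_continuousAt]
  intro x
  set φ := chartAt V x with hφdef
  have hφ : φ ∈ atlas V X := chart_mem_atlas V x
  have hx : x ∈ φ.source := mem_chart_source V x
  have hy : φ x ∈ φ.target := φ.map_source hx
  have hev : Phi V f κ =ᶠ[𝓝 x]
      fun z => (fun y => ‖rep f φ y‖ ^ 2 + κ * tq (rep f φ) y) (φ z) := by
    filter_upwards [φ.open_source.mem_nhds hx] with z hz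
    have := Phi_rep hf himm κ hφ (φ.map_source hz)
    rw [φ.left_inv hz] at this
    exact this
  refine ContinuousAt.congr ?_ hev.symm
  have hL : ContinuousAt (fun y => ‖rep f φ y‖ ^ 2 + κ * tq (rep f φ) y) (φ x) := by
    have h1 := (rep_contDiffAt hf hφ hy).continuousAt
    have h2 := tq_continuousAt (rep_contDiffAt hf hφ hy) (rep_inj hf himm hφ hy)
    exact (h1.norm.pow 2).add (continuousAt_const.mul h2)
  exact ContinuousAt.comp (x := x) (f := φ) hL (φ.continuousAt hx)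

theorem Phi_le_one [CompactSpace X] (hf : ContMDiff 𝓘(ℝ, V) 𝓘(ℝ, W) ∞ f)
    (himm : ∀ x, Function.Injective (mfderiv 𝓘(ℝ, V) 𝓘(ℝ, W) f x))
    (hball : ∀ x, ‖f x‖ ≤ 1) {κ c : ℝ} (hκ : 0 ≤ κ) (hκc : κ * c < 1 + κ)
    (hc : ∀ φ ∈ atlas V X, ∀ y ∈ φ.target, ∀ u,
      ‖sff (rep f φ) y u u‖ ≤ c * ‖fderiv ℝ (rep f φ) y u‖ ^ 2) (x : X) :
    Phi V f κ x ≤ 1 := by
  obtain ⟨x0, -, hx0⟩ := isCompact_univ.exists_isMaxOn ⟨x, Set.mem_univ x⟩
    (Phi_continuous hf himm κ).continuousOn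
  have hle : ∀ z, Phi V f κ z ≤ Phi V f κ x0 := fun z => hx0 (Set.mem_univ z)
  refine (hle x).trans ?_
  set φ := chartAt V x0 with hφdef
  have hφ : φ ∈ atlas V X := chart_mem_atlas V x0
  have hxs : x0 ∈ φ.source := mem_chart_source V x0
  have hy : φ x0 ∈ φ.target := φ.map_source hxs
  have hmax : IsLocalMax (fun y => ‖rep f φ y‖ ^ 2 + κ * tq (rep f φ) y) (φ x0) := by
    filter_upwards [φ.open_target.mem_nhds hy] with z hz
    rw [← Phi_rep hf himm κ hφ hz, ← Phi_rep hf himm κ hφ hy, φ.left_inv hxs]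
    exact hle _
  have hb : ‖rep f φ (φ x0)‖ ≤ 1 := hball _
  have h0 := max_principle (rep_ev hf hφ hy) (rep_inj hf himm hφ hy) hκ hκc (hc φ hφ _ hy)
    hb hmax
  have h1 := Phi_rep hf himm κ hφ hy
  rw [φ.left_inv hxs, h0, mul_zero, add_zero] at h1
  rw [h1]
  exact pow_le_one₀ (norm_nonneg _) hb

end

end Pool.Agent.X180.NC
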